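import Pool.Agent.Lib.MP_12274d_pr.Defs
import Pool.Agent.Lib.MP_12274d_pr.Quenched

/-!
# The lower bound `f_r^GW(b) ≥ exp(-b/(r-1))`

The definitions (`step`, `infected`, `Percolates`, `critProb`, `InTree`, `tree`, `gwLaw`,
`IsOffspring`, `fGW`) are in `Pool.Agent.Lib.MP_12274d_pr.Defs`.

Idea of the proof.  For an offspring law supported on `{r, r+1, ...}` put
`F(y) = P(Bin(ξ, y) ≥ r)`.  A tree `T_ξ` contains healthy forts as soon as
`(1 - p) (1 - F(y)) ≥ 1 - y` for some `y < 1`.  If this fails for all `y < 1` then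
`F(y) > (y - p)/(1 - p)`, and the exact identity
`∫_0^1 P(Bin(k, y) ≥ r) y^(-2) dy = k/(r-1) - 1` for `k ≥ r` gives
`b/(r-1) - 1 ≥ ∫_p^1 (y-p)/((1-p) y^2) dy = -log p/(1-p) - 1`, so `p > exp(-b/(r-1))`.
-/

namespace Pool.Agent.Results.MP_12274d_pr.BootstrapGWLowerBound

open MeasureTheory ProbabilityTheory Set Pool.Agent.Lib.MP_12274d_pr
open scoped ENNReal

/-- If `b ≥ 2` then `ξ ≥ 2` with positive probability. -/
lemma two_pos (μ : ProbabilityMeasure ℕ) (b : ℝ) (hb : 2 ≤ b) (h : IsOffspring μ b) :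
    0 < (μ : Measure ℕ) (Ici 2) := by
  rw [pos_iff_ne_zero]
  intro h0
  have h1 : ∫⁻ k, (k : ℝ≥0∞) ∂(μ : Measure ℕ) ≤ ∫⁻ _, (1 : ℝ≥0∞) ∂(μ : Measure ℕ) := by
    apply lintegral_mono_ae
    have : ∀ᵐ k ∂(μ : Measure ℕ), k ∉ Ici 2 := measure_eq_zero_iff_ae_notMem.mp h0
    filter_upwards [this] with k hk
    have : k ≤ 1 := by
      have : ¬ 2 ≤ k := hk
      omega
    exact_mod_cast this
  rw [h.2, lintegral_const, measure_univ, mul_one, ENNReal.ofReal_le_one] at h1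
  linarith

/-- An offspring law with mean `b` exists for every `b ≥ 1`. -/
lemma exists_law (b : ℝ) (hb : 1 ≤ b) : ∃ μ : ProbabilityMeasure ℕ, IsOffspring μ b := by
  set k := ⌊b⌋₊ with hk
  have hk1 : 1 ≤ k := by rw [hk]; exact Nat.le_floor (by exact_mod_cast hb)
  have h1 : (k : ℝ) ≤ b := Nat.floor_le (by linarith)
  have h2 : b < k + 1 := Nat.lt_floor_add_one b
  set θ : ℝ := b - k with hθ
  have hθ0 : 0 ≤ θ := by linarith
  have hθ1 : θ ≤ 1 := by linarith
  set ρ : Measure ℕ := ENNReal.ofReal (1 - θ) • Measure.dirac k +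
    ENNReal.ofReal θ • Measure.dirac (k + 1) with hρ
  have hρ1 : IsProbabilityMeasure ρ := by
    constructor
    rw [hρ]
    simp only [Measure.coe_add, Measure.coe_smul, Pi.add_apply, Pi.smul_apply, measure_univ,
      smul_eq_mul, mul_one]
    rw [← ENNReal.ofReal_add (by linarith) hθ0]
    simp
  refine ⟨⟨ρ, hρ1⟩, ?_, ?_⟩
  · change ρ {0} = 0
    rw [hρ]
    simp only [Measure.coe_add, Measure.coe_smul, Pi.add_apply, Pi.smul_apply, smul_eq_mul]
    rw [Measure.dirac_apply, Measure.dirac_apply]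
    have : k ≠ 0 := by omega
    simp [this]
  · change ∫⁻ k, (k : ℝ≥0∞) ∂ρ = ENNReal.ofReal b
    rw [hρ, lintegral_add_measure, lintegral_smul_measure, lintegral_smul_measure,
      lintegral_dirac, lintegral_dirac]
    simp only [smul_eq_mul]
    rw [← ENNReal.ofReal_natCast, ← ENNReal.ofReal_natCast, ← ENNReal.ofReal_mul (by linarith),
      ← ENNReal.ofReal_mul hθ0, ← ENNReal.ofReal_add (by apply mul_nonneg <;> linarith)
        (by positivity)]
    congr 1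
    push_cast
    rw [hθ]
    ring

/-- Almost every tree satisfies the bound. -/
lemma ae_bound (r : ℕ) (hr : 2 ≤ r) (b : ℝ) (hb : r ≤ b) (μ : ProbabilityMeasure ℕ)
    (hμ : IsOffspring μ b) :
    ∀ᵐ c ∂(gwLaw μ), Real.exp (-b / (r - 1)) ≤ critProb (tree c) r := by
  obtain ⟨s, rfl⟩ := Nat.exists_eq_add_of_le' hr
  have hb2 : (2 : ℝ) ≤ b := by
    refine le_trans ?_ hb
    exact_mod_cast hr
  have hb0 : 0 < b := by linarith
  have e : (((s + 2 : ℕ) : ℝ) - 1) = s + 1 := by push_cast; ring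
  rw [e]
  set p := Real.exp (-b / (s + 1)) with hp
  have hp0 : 0 < p := Real.exp_pos _
  have hp1 : p < 1 := by
    rw [hp, Real.exp_lt_one_iff]
    have : 0 < b / ((s : ℝ) + 1) := by positivity
    rw [neg_div]
    linarith
  obtain ⟨x, hx0, hx1, hx⟩ := exists_fixed s μ b hμ.2 hb0 p hp0 hp1 le_rfl
  set q : unitInterval := ⟨p, hp0.le, hp1.le⟩ with hq
  have h1 := le_prob_Hinf μ q (s + 2) x hx0.le hx1 hx
  filter_upwards [ae_not_percolates μ hμ.1 (two_pos μ b hb2 hμ) q hp1 (s + 2) hr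
    (hx0.trans_le h1)] with c hc
  exact le_critProb (tree c) (s + 2) hc

/-- **Main theorem.**  Let `r ≥ 2` and `b ≥ r`.  For every offspring law with `P(ξ = 0) = 0` and
mean `b` the critical probability of the Galton-Watson tree is almost surely constant, and the
infimum `f_r^GW(b)` of these constants satisfies `f_r^GW(b) ≥ exp(-b/(r-1))`. -/
theorem result (r : ℕ) (hr : 2 ≤ r) (b : ℝ) (hb : r ≤ b) :
    (∀ μ : ProbabilityMeasure ℕ, IsOffspring μ b →
      ∃ q : ℝ, ∀ᵐ c ∂(gwLaw μ), critProb (tree c) r = q) ∧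
    Real.exp (-b / (r - 1)) ≤ fGW r b := by
  have hb2 : (2 : ℝ) ≤ b := by
    refine le_trans ?_ hb
    exact_mod_cast hr
  have hconst : ∀ μ : ProbabilityMeasure ℕ, IsOffspring μ b →
      ∃ q : ℝ, ∀ᵐ c ∂(gwLaw μ), critProb (tree c) r = q :=
    fun μ hμ => critProb_ae_const μ hμ.1 (two_pos μ b hb2 hμ) r hr
  refine ⟨hconst, ?_⟩
  obtain ⟨μ₀, hμ₀⟩ := exists_law b (by linarith)
  obtain ⟨q₀, hq₀⟩ := hconst μ₀ hμ₀
  refine le_csInf ⟨q₀, μ₀, hμ₀, hq₀⟩ ?_
  rintro q ⟨μ, hμ, hq⟩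
  have h1 := ae_bound r hr b hb μ hμ
  obtain ⟨c, hc1, hc2⟩ := (h1.and hq).exists
  rw [← hc2]
  exact hc1

end Pool.Agent.Results.MP_12274d_pr.BootstrapGWLowerBound
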